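import Pool.Agent.Lib_helper40.RNK.Final

/-!
For every fixed alphabet, asymptotically almost all bireversible transducers generate a free group
whose basis is the set of states. In particular they generate no Burnside group.
-/

namespace Pool.Agent.Results.MP_7da452_al.GenericFree

open Filter Topology

/-- A transducer with states `Fin n` and letters `Fin k`, given by its transition map `δ` and its
output map `out`, is bireversible: it is invertible, it is reversible, and its inverse transducer
is reversible (for every letter `b`, the map `q ↦ δ q (a q)` is a permutation, where `a q` is the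
letter with output `b`). -/
def Bireversible {n k : ℕ} (δ : Fin n → Fin k → Fin n) (out : Fin n → Fin k → Fin k) : Prop :=
  (∀ q, Function.Bijective (out q)) ∧ (∀ x, Function.Bijective (fun q => δ q x)) ∧
    ∀ (b : Fin k) (a : Fin n → Fin k), (∀ q, out q (a q) = b) →
      Function.Bijective (fun q => δ q (a q))

/-- The states act on the words by the permutations `f q`; these permutations are a basis of the
group that they generate (a free group), and this group has no nontrivial element of finite
order. -/
def FreeOnStates {n k : ℕ} (δ : Fin n → Fin k → Fin n) (out : Fin n → Fin k → Fin k) : Prop :=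
  ∃ f : Fin n → Equiv.Perm (List (Fin k)), (∀ q, f q [] = []) ∧
    (∀ q a w, f q (a :: w) = out q a :: f (δ q a) w) ∧
    Function.Injective (FreeGroup.lift f) ∧
    ∀ g ∈ Subgroup.closure (Set.range f), IsOfFinOrder g → g = 1

/-- For every alphabet with `k ≥ 2` letters, the proportion of the bireversible transducers with
`n` states whose group is free with basis the states tends to `1`. -/
theorem result (k : ℕ) (hk : 2 ≤ k) : Tendsto (fun n : ℕ =>
      (Nat.card {A : (Fin n → Fin k → Fin n) × (Fin n → Fin k → Fin k) //
        Bireversible A.1 A.2 ∧ FreeOnStates A.1 A.2} : ℝ) /
      (Nat.card {A : (Fin n → Fin k → Fin n) × (Fin n → Fin k → Fin k) //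
        Bireversible A.1 A.2} : ℝ)) atTop (𝓝 1) :=
  RNK40.free_all k hk

end Pool.Agent.Results.MP_7da452_al.GenericFree
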