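import Pool.Agent.Lib_helper84.BT.Gen

/-!
# Transducers with alternating local action, and generic bireversible transducers, do not generate
Burnside groups

Let `(δ, out)` be an invertible reversible transducer with `n ≥ 8` states and `k` letters. If the
permutations `q ↦ δ q a` of the states (one for each letter `a`) generate a group which contains
the alternating group, and every element of the semigroup generated by the states has finite
order, then the group generated by the states is finite. For every fixed number `k ≥ 2` of letters
the proportion of the bireversible transducers with `n` states which are of this kind tends to `1`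
as `n` tends to infinity.
-/

set_option autoImplicit false

namespace Pool.Agent.Results.MP_7da452_al.GenericNotBurnside

open Filter Topology Pool.Agent.Lib_helper84.BT

theorem result :
    (∀ (n k : ℕ) (δ : Fin n → Fin k → Fin n) (out : Fin n → Fin k → Fin k), 8 ≤ n →
      (∀ q, Function.Bijective (out q)) → (∀ a, Function.Bijective (fun q => δ q a)) →
      AltLocal δ → NotBurnside δ out) ∧
    ∀ k : ℕ, 2 ≤ k → Tendsto (fun n : ℕ =>
      (Nat.card {A : (Fin n → Fin k → Fin n) × (Fin n → Fin k → Fin k) //
          IsBireversible A.1 A.2 ∧ AltLocal A.1 ∧ NotBurnside A.1 A.2} : ℝ) /
        (Nat.card {A : (Fin n → Fin k → Fin n) × (Fin n → Fin k → Fin k) //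
          IsBireversible A.1 A.2} : ℝ)) atTop (𝓝 1) :=
  ⟨fun _ _ δ out hn hout hδ hF => notBurnside_of_altLocal δ out hn hout hδ hF, ratio_tendsto⟩

end Pool.Agent.Results.MP_7da452_al.GenericNotBurnside
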